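import Pool.Agent.PRT.StmtsD

/-!
# Row CRD (squad PRT, MP_b2962a_an): the coordinates exist
-/

set_option autoImplicit false

namespace Pool.Agent.PRT.H4

open Set MeasureTheory
open scoped ContDiff

theorem crd (hboo : BooStmt) (hglf : GlfStmt) (hgrf : GrfStmt) (hsdf : SdfStmt) (hseq : SeqStmt)
    (hhat : HatStmt) (hudt : UdtStmt) (hubd : UbdStmt) : CrdStmt := by
  intro k
  obtain ⟨cg, lg, hg⟩ := hgrf (k + 2)
  obtain ⟨ch, lh, hh⟩ := hhat (k + 2) cg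
  obtain ⟨cs, ls, hs⟩ := hsdf (k + 2)
  obtain ⟨cq, lq, hq⟩ := hseq (k + 2) cs
  obtain ⟨c0, h1, h2, h3, h4⟩ : ∃ c0 : ℕ, cg ≤ c0 ∧ ch ≤ c0 ∧ cs ≤ c0 ∧ cq ≤ c0 :=
    ⟨cg + ch + cs + cq, by omega, by omega, by omega, by omega⟩
  obtain ⟨lu, hu⟩ := hudt c0
  obtain ⟨cb, lb, hb⟩ := hubd k c0
  refine ⟨cb, c0 + 10 * (k + 2) + 220, ?_⟩
  intro N hN
  obtain ⟨lo, ho⟩ := hboo (k + 2 + 2) N (4 * N + (k + 2 + 2) + 4) (by omega) le_rfl
  refine ⟨4 * N + (k + 2 + 2) + 4, |lg| + |lh| + |ls| + |lq| + |lu| + |lb| + |lo|, ?_⟩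
  intro F w C q p l hl hG
  have ag := abs_nonneg lg
  have ah := abs_nonneg lh
  have as := abs_nonneg ls
  have aq := abs_nonneg lq
  have au := abs_nonneg lu
  have ab := abs_nonneg lb
  have ao := abs_nonneg lo
  have lg' : lg ≤ l := by linarith [le_abs_self lg]
  have lh' : lh ≤ l := by linarith [le_abs_self lh]
  have ls' : ls ≤ l := by linarith [le_abs_self ls]
  have lq' : lq ≤ l := by linarith [le_abs_self lq]
  have lu' : lu ≤ l := by linarith [le_abs_self lu]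
  have lb' : lb ≤ l := by linarith [le_abs_self lb]
  have lo' : lo ≤ l := by linarith [le_abs_self lo]
  obtain ⟨gl, -, gb⟩ := hglf F w C q p l N _ hG
  have hNr : Nr (fun z => F^[q] z - p) ((q : ℝ) • w - p) C l N (k + 2 + 2) :=
    ho _ _ C l lo' gl hG.v0 hG.lN hG.Cl gb
  have hNrm : ∀ m, m ≤ k + 2 + 2 → Nr (fun z => F^[q] z - p) ((q : ℝ) • w - p) C l N m :=
    fun m hm => ⟨hNr.lf, hNr.v0, hNr.lN, hNr.l1, hNr.Cl, fun i hi => hNr.bd i (hi.trans hm)⟩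
  -- the number `n`
  have hC0 : 0 ≤ C := by
    have := hG.lf.dev 0 0
    simpa using this
  have hε := hG.v0
  have hl1 := hG.l1
  have hε1 : ‖(q : ℝ) • w - p‖ ≤ 1 := by
    have h5 : 1 ≤ l ^ (2 * N) := one_le_pow₀ hl1
    have h6 := hG.lN
    nlinarith
  obtain ⟨n, hn⟩ : ∃ n : ℕ, n = ⌈16 * (C + 1) / ‖(q : ℝ) • w - p‖⌉₊ := ⟨_, rfl⟩
  have hpos : 0 < 16 * (C + 1) / ‖(q : ℝ) • w - p‖ := by positivity
  have n1 : 1 ≤ n := by
    rw [hn]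
    exact Nat.ceil_pos.2 hpos
  have n2 : 16 * (C + 1) ≤ n * ‖(q : ℝ) • w - p‖ := by
    have h5 := Nat.le_ceil (16 * (C + 1) / ‖(q : ℝ) • w - p‖)
    rw [← hn, div_le_iff₀ hε] at h5
    exact h5
  have n3 : n * ‖(q : ℝ) • w - p‖ ≤ 64 * l := by
    have h5 := Nat.ceil_lt_add_one hpos.le
    rw [← hn] at h5
    have h6 : (n : ℝ) * ‖(q : ℝ) • w - p‖ ≤
        (16 * (C + 1) / ‖(q : ℝ) • w - p‖ + 1) * ‖(q : ℝ) • w - p‖ := by
      gcongr
    have h7 : (16 * (C + 1) / ‖(q : ℝ) • w - p‖ + 1) * ‖(q : ℝ) • w - p‖ =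
        16 * (C + 1) + ‖(q : ℝ) • w - p‖ := by
      field_simp
    have h8 := hG.Cl
    linarith
  have hgr := hg F w C q p l N _ n lg' (by omega) (by omega) hG hNr n3
  obtain ⟨H, sH, eH, bH, dH, aH⟩ := hh F w C q p l N _ n lh' hG n1 n2 hgr
  obtain ⟨S, sS, eS, bS⟩ := hs _ _ C l N ls' (hNrm (k + 2 + 1) (by omega))
  have bq := hq F w C q p l N _ S lq' (by omega) (by omega) hG hNr sS eS bS
  have pw : ∀ a, a ≤ c0 → l ^ a ≤ l ^ c0 := fun a ha => pow_le_pow_right₀ hl1 ha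
  have hv0 : 0 ≤ ‖(q : ℝ) • w - p‖ := norm_nonneg _
  obtain ⟨sU, dU⟩ := hu _ _ C l N H S lu' (by omega) (hNrm 2 (by omega)) sH sS
    (bH.mono (by omega) (pw _ h1)) aH (fun z => (bS.norm_le z).trans
      (mul_le_mul_of_nonneg_left (pw _ h3) (sq_nonneg _)))
  obtain ⟨eU, bU, fU⟩ := hb F _ _ w C l N H S lb' (hNrm k (by omega)) hG.lf.sm sH sS eH eS
    (bH.mono (by omega) (pw _ h1))
    (bS.mono (by omega) (mul_le_mul_of_nonneg_left (pw _ h3) (sq_nonneg _)))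
    (dH.mono (by omega) (mul_le_mul_of_nonneg_left (pw _ h2) hv0))
    (bq.mono (by omega) (mul_le_mul_of_nonneg_left (pw _ h4) (sq_nonneg _)))
  exact ⟨_, sU, eU, dU, bU, fU⟩

end Pool.Agent.PRT.H4
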