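import Pool.Agent.PRT.StmtsA

/-!
# Row LSP (squad PRT, MP_b2962a_an): the line separates
-/

set_option autoImplicit false

namespace Pool.Agent.PRT.H4

open Set MeasureTheory
open scoped ContDiff

theorem lsp (h1 : CrsStmt) (h2 : LbdStmt) : LspStmt := by
  intro G w C L i hL H hH n d u hd hu hdu
  obtain ⟨-, -, hT, hcl⟩ := h2 G w C L i hL
  have hU : IsOpen (range fun t => (G ^ n) (L t))ᶜ := (hcl n).isOpen_compl
  have hne : u ∈ (range fun t => (G ^ n) (L t))ᶜ := by
    by_contra hcon
    rw [connectedComponentIn_eq_empty hcon] at hdu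
    exact hdu
  have hFo : IsOpen (connectedComponentIn (range fun t => (G ^ n) (L t))ᶜ u) :=
    hU.connectedComponentIn
  have hFc : IsConnected (connectedComponentIn (range fun t => (G ^ n) (L t))ᶜ u) :=
    isConnected_connectedComponentIn_iff.2 hne
  have hFp : IsPathConnected (connectedComponentIn (range fun t => (G ^ n) (L t))ᶜ u) :=
    hFo.isConnected_iff_isPathConnected.1 hFc
  have hj : JoinedIn (connectedComponentIn (range fun t => (G ^ n) (L t))ᶜ u) d u :=
    hFp.joinedIn d hdu u (mem_connectedComponentIn hne)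
  obtain ⟨γ, hγ⟩ := hj
  have hσc : Continuous γ.extend := γ.continuous_extend
  have hLc : Continuous (fun t => (G ^ n) (L t)) := (G ^ n).continuous.comp hL.cont
  have hip : Continuous (fun s : ℝ => ip w (γ.extend s)) := by
    unfold ip
    fun_prop
  obtain ⟨A, hA⟩ := (isCompact_Icc (a := (0 : ℝ)) (b := 1)).exists_bound_of_continuousOn
    hip.continuousOn
  obtain ⟨T, hT0, hT1, hT2⟩ := hT n A
  obtain ⟨t, ht, s, hs, hts⟩ := h1 (fun t => (G ^ n) (L t)) γ.extend w T hLc hσc hT0
    (by
      intro s hs
      have := (abs_le.1 (by simpa using hA s hs)).1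
      linarith)
    (by
      intro s hs
      have := (abs_le.1 (by simpa using hA s hs)).2
      linarith)
    (by
      intro t _
      have h0 := (abs_lt.1 (hH n t)).1
      rw [Path.extend_zero]
      linarith)
    (by
      intro t _
      have h0 := (abs_lt.1 (hH n t)).2
      rw [Path.extend_one]
      linarith)
  have hmem : γ.extend s ∈ connectedComponentIn (range fun t => (G ^ n) (L t))ᶜ u := by
    rw [Path.extend_apply γ hs]
    exact hγ _
  exact connectedComponentIn_subset _ _ hmem ⟨t, hts⟩

end Pool.Agent.PRT.H4
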